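import Mathlib
import Pool.Agent.H587.CT.AllScales2

set_option autoImplicit false

/-!
Number of solutions of `q ‖qα‖ ‖qβ - γ_q‖ < κ` with `q ≤ Q`, at every large scale `Q` and for all
`κ` down to `(log log Q)^(1+ε) / (log Q)^2`: for every real `α`, arbitrary targets `γ_q`, and almost
every `β` with respect to an arbitrary probability measure of polynomial Fourier decay.
-/

namespace Pool.Agent.Results.MP_0ea415_nt.AllScalesCounting

open MeasureTheory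

theorem result (δ : ℝ) (hδ : 0 < δ) : ∃ c : ℝ, 0 < c ∧
    ∀ (μ : Measure ℝ) [IsProbabilityMeasure μ] (C : ℝ),
      (∀ n : ℤ, n ≠ 0 →
        ‖∫ x : ℝ, Complex.exp (2 * Real.pi * ((n : ℝ) * x : ℝ) * Complex.I) ∂μ‖ ≤
          C * |(n : ℝ)| ^ (-δ)) →
      ∀ (α : ℝ) (γ : ℕ → ℝ), ∀ᵐ β ∂μ, ∀ ε : ℝ, 0 < ε → ∃ Q₀ : ℕ, ∀ Q : ℕ, Q₀ ≤ Q → ∀ κ : ℝ,
        Real.log (Real.log Q) ^ (1 + ε) / Real.log Q ^ 2 ≤ κ → κ ≤ 1 →
          c * κ * Real.log Q ^ 2 ≤ ((Finset.Icc 1 Q).filter fun q : ℕ =>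
            q * (|q * α - round (q * α)| * |(q * β - γ q) - round (q * β - γ q)|) < κ).card :=
  Pool.Agent.H587.CT.all_scales δ hδ

end Pool.Agent.Results.MP_0ea415_nt.AllScalesCounting
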