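import Mathlib
import Pool.Agent.H587.GA.Gauge2
import Pool.Agent.H587.PG.FinalC
import Pool.Agent.H587.PG.FinalD

/-!
# Gauge functions for the exceptional sets in Littlewood's conjecture, from both sides

For a rate `φ`, a number `α` and a shift `γ` let `Exceptional φ α γ` be the set of the numbers `β` with
`liminf q φ(log q) ‖q α‖ ‖q β - γ‖ > 0`.

Lower half. For the rates `(log q) ^ c`, `c > 1`, the exceptional sets are large: they have infinite Hausdorff
measure for the gauge `r exp ((log 1/r) ^ θ)`, `θ > 2 - c`, for every badly approximable `α` and for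
almost every `α`, for countably many `α` and `γ` at the same time; for `c < 2` and badly approximable `α` also
for the critical gauge `r exp (η (log 1/r) ^ (2 - c))`; for the rate `log q loglog q` the gauge is
`r exp (η log (1/r) / loglog (1/r))`, with `η > 0` arbitrary. The exceptional pairs have infinite
measure for `r ^ 2 exp ((log 1/r) ^ θ)`, `θ > 2 - c`.

Upper half. They are null sets for the gauges with `θ < 1 - c / 2`, also with respect to general measures.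

Proof of the lower half. A tree of binary intervals. An interval which is far from the dangerous points `b / q` of
larger size defines a lattice in `ℝ ^ 3` without short vectors; so it contains at most the expected
number of dangerous points of the next sizes (this is the counting lemma: a lattice of covolume one with shortest
vector `η` has at most `C X ^ 3` points in a cube of side `X ≥ η ^ (-2)`). The intervals of a given cover with small
gauge sum are removed as well, and an induction shows that a proportion `exp (- n ^ (2 - c + o(1)))` of the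
intervals of length `2 ^ (- n)` survives. The plane follows by a slicing inequality.
-/

set_option autoImplicit false

open MeasureTheory

namespace Pool.Agent.Results.MP_0ea415_nt.ExceptionalSetsTwoSidedGauge

/-- the distance to the nearest integer -/
noncomputable def nint (x : ℝ) : ℝ := |x - round x|

/-- the numbers `β` with `liminf q φ(log q) ‖q α‖ ‖q β - γ‖ > 0` -/
def Exceptional (φ : ℝ → ℝ) (α γ : ℝ) : Set ℝ :=
  {β | ∃ κ : ℝ, 0 < κ ∧ ∃ N : ℕ, ∀ q : ℕ, N ≤ q →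
    κ ≤ q * φ (Real.log q) * (nint (q * α) * nint (q * β - γ))}

/-- `liminf q (log q) ^ c' ‖q α‖ > 0` -/
def Diophantine (α c' : ℝ) : Prop :=
  ∃ κ : ℝ, 0 < κ ∧ ∃ N : ℕ, ∀ q : ℕ, N ≤ q → κ ≤ q * Real.log q ^ c' * nint (q * α)

/-- the gauge function `r exp ((log (1 / r)) ^ θ)` -/
noncomputable def gauge (θ : ℝ) (r : ENNReal) : ENNReal :=
  ENNReal.ofReal (r.toReal * Real.exp (Real.log (1 / r.toReal) ^ θ))

/-- the gauge function `r exp (η (log (1 / r)) ^ θ)` -/
noncomputable def gaugeCrit (η θ : ℝ) (r : ENNReal) : ENNReal :=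
  ENNReal.ofReal (r.toReal * Real.exp (η * Real.log (1 / r.toReal) ^ θ))

/-- the gauge function `r exp (η log (1 / r) / loglog (1 / r))` -/
noncomputable def gaugeLog (η : ℝ) (r : ENNReal) : ENNReal :=
  ENNReal.ofReal (r.toReal * Real.exp (η * Real.log (1 / r.toReal) / Real.log (Real.log (1 / r.toReal))))

/-- **Gauge functions for the exceptional sets in Littlewood's conjecture.**
See the text at the beginning of the file. -/
theorem result :
    -- (1) lower half, rate `(log q) ^ c`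
    (∀ c c' θ : ℝ, 1 < c → 0 ≤ c' → c' < c → 0 < θ → 2 - c < θ → 1 + c' - c < θ →
      ∀ α γ : ℕ → ℝ, (∀ i, Diophantine (α i) c') →
        Measure.mkMetric (gauge θ)
          {β : ℝ | β ∈ Set.Icc (0 : ℝ) 1 ∧ ∀ i, β ∈ Exceptional (fun t => t ^ c) (α i) (γ i)} = ⊤) ∧
    -- (1') lower half, rate `(log q) ^ c`, the critical gauge
    (∀ c c' η : ℝ, 1 < c → c < 2 → 0 ≤ c' → c' < 1 → 0 < η →
      ∀ α γ : ℕ → ℝ, (∀ i, Diophantine (α i) c') →
        Measure.mkMetric (gaugeCrit η (2 - c))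
          {β : ℝ | β ∈ Set.Icc (0 : ℝ) 1 ∧ ∀ i, β ∈ Exceptional (fun t => t ^ c) (α i) (γ i)} = ⊤) ∧
    -- (2) lower half, rate `log q loglog q`
    (∀ c' η : ℝ, 0 ≤ c' → c' < 1 → 0 < η → ∀ α γ : ℕ → ℝ, (∀ i, Diophantine (α i) c') →
      Measure.mkMetric (gaugeLog η)
        {β : ℝ | β ∈ Set.Icc (0 : ℝ) 1 ∧ ∀ i, β ∈ Exceptional (fun t => t * Real.log t) (α i) (γ i)} = ⊤) ∧
    -- (3) lower half, pairs
    (∀ c θ : ℝ, 1 < c → 0 < θ → 2 - c < θ → ∀ γ : ℕ → ℝ,
      Measure.mkMetric (fun r => r * gauge θ r)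
        {p : ℝ × ℝ | p.1 ∈ Set.Icc (0 : ℝ) 1 ∧ p.2 ∈ Set.Icc (0 : ℝ) 1 ∧
          ∀ i, p.2 ∈ Exceptional (fun t => t ^ c) p.1 (γ i)} = ⊤) ∧
    -- (4) upper half
    (∀ (μ ν : Measure ℝ) [IsProbabilityMeasure μ] [IsFiniteMeasure ν] (C δ : ℝ), 0 < δ →
      (∀ n : ℤ, n ≠ 0 →
        ‖∫ x : ℝ, Complex.exp (2 * Real.pi * ((n : ℝ) * x : ℝ) * Complex.I) ∂μ‖ ≤ C * |(n : ℝ)| ^ (-δ)) →
      ∀ (Γ : Set ℝ) (θ₂ c θ : ℝ), 0 ≤ θ₂ → 0 < c → c * (1 + θ₂) < 2 → 0 ≤ θ → θ < 1 - c / 2 →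
      (∃ C₂ : ℝ, ∀ K : ℕ, 1 ≤ K → ∃ F : Finset ℝ, (F.card : ℝ) ≤ Real.exp (C₂ * (K : ℝ) ^ θ₂) ∧
        ∀ γ ∈ Γ, ∃ f ∈ F, nint (γ - f) ≤ Real.exp (-K)) →
      ∀ ε : ℝ, 0 < ε →
        ∃ (ι : Type) (_ : Countable ι) (a b r : ι → ℝ), (∀ i, 0 < r i ∧ r i < ε) ∧
          {p : ℝ × ℝ | ∃ γ ∈ Γ, p.2 ∈ Exceptional (fun t => t ^ c) p.1 γ} ⊆
            (⋃ i, Set.Ico (a i) (a i + r i) ×ˢ Set.Ico (b i) (b i + r i)) ∧
          ∑' i, ν (Set.Ico (a i) (a i + r i)) * μ (Set.Ico (b i) (b i + r i)) *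
            ENNReal.ofReal (Real.exp (Real.log (1 / r i) ^ θ)) < ENNReal.ofReal ε) := by
  refine ⟨?_, ?_, ?_, ?_, ?_⟩
  · intro c c' θ h1 h2 h3 h4 h5 h6 α γ hα
    exact Pool.Agent.H587.PG.part_pow c c' θ h1 h2 h3 h5 (by linarith) h4 α γ hα
  · intro c c' η h1 h2 h3 h4 h5 α γ hα
    exact Pool.Agent.H587.PG.part_crit c c' η h1 h2 h3 h4 h5 α γ hα
  · intro c' η h1 h2 h3 α γ hα
    exact Pool.Agent.H587.PG.part_log c' η h1 h2 h3 α γ hα
  · intro c θ h1 h2 h3 γ
    exact Pool.Agent.H587.PG.part_pairs c θ h1 h3 h2 γ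
  · intro μ ν _ _ C δ hδ hμ Γ θ₂ c θ h1 h2 h3 h4 h5 hΓ ε hε
    obtain ⟨ι, hι, a, b, r, h6, h7, h8⟩ := Pool.Agent.H587.GA.gauge μ ν C δ hδ hμ Γ θ₂ c θ h1 h2 h3 h4 h5 hΓ ε hε
    refine ⟨ι, hι, a, b, r, h6, ?_, h8⟩
    refine subset_trans ?_ h7
    rintro p ⟨γ, hγ, κ, hκ, N, hN⟩
    exact ⟨γ, hγ, κ, hκ, N, fun q hq _ => hN q hq⟩

end Pool.Agent.Results.MP_0ea415_nt.ExceptionalSetsTwoSidedGauge
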