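import Mathlib
import Pool.Agent.H587.FD.Final

set_option autoImplicit false

/-!
Divergence half of Gallagher's theorem on vertical fibres, for every probability measure with
polynomial Fourier decay, every real `α` (under a condition that is automatic for
`ψ q = κ / ((q + 1) (log (q + 2)) ^ 2)`) and moving targets `γ q`.
-/

namespace Pool.Agent.Results.MP_0ea415_nt.FourierDecayGallagher

open MeasureTheory

theorem result (μ : Measure ℝ) [IsProbabilityMeasure μ] (C δ : ℝ) (hδ : 0 < δ)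
    (hμ : ∀ n : ℤ, n ≠ 0 →
      ‖∫ x : ℝ, Complex.exp (2 * Real.pi * ((n : ℝ) * x : ℝ) * Complex.I) ∂μ‖ ≤
        C * |(n : ℝ)| ^ (-δ))
    (α : ℝ) (γ : ℕ → ℝ) (ψ : ℕ → ℝ) (hψ : ∀ q, 0 < ψ q) (hmono : Antitone ψ)
    (hdiv : ¬ Summable fun q : ℕ => ψ q * Real.log q)
    (hmax : ∀ ε : ℝ, 0 < ε → ∃ c : ℝ, 0 < c ∧ ∀ q : ℕ, 1 ≤ q →
      c * (q : ℝ) ^ (-1 - ε) ≤ max |q * α - round (q * α)| (ψ q)) :
    ∀ᵐ β ∂μ, {q : ℕ | |q * α - round (q * α)| *
      |(q * β - γ q) - round (q * β - γ q)| < ψ q}.Infinite :=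
  Pool.Agent.H587.FD.part_two μ C δ hδ hμ α γ ψ hψ hmono hdiv hmax

end Pool.Agent.Results.MP_0ea415_nt.FourierDecayGallagher
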