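import Mathlib
import Pool.Agent.H587.FD.Unif3

set_option autoImplicit false

/-!
Littlewood-type theorem with a power of the logarithm, uniformly over all `α` in a class `A` of
small (stretched exponential) covering numbers and over all shifts `γ` in a class `Γ`, for almost
every `β` with respect to an arbitrary probability measure of polynomial Fourier decay.
-/

namespace Pool.Agent.Results.MP_0ea415_nt.UniformThinClasses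

open MeasureTheory

theorem result (μ : Measure ℝ) [IsProbabilityMeasure μ] (C δ : ℝ) (hδ : 0 < δ)
    (hμ : ∀ n : ℤ, n ≠ 0 →
      ‖∫ x : ℝ, Complex.exp (2 * Real.pi * ((n : ℝ) * x : ℝ) * Complex.I) ∂μ‖ ≤
        C * |(n : ℝ)| ^ (-δ))
    (A Γ : Set ℝ) (θ₁ θ₂ c : ℝ) (hθ₁ : 0 ≤ θ₁) (hθ₂ : 0 ≤ θ₂) (hc : 0 < c)
    (hc1 : c < 2 - 2 * θ₁) (hc2 : c * (1 + θ₂) < 2)
    (hA : ∃ C₁ : ℝ, ∀ K : ℕ, 1 ≤ K → ∃ F : Finset ℝ, (F.card : ℝ) ≤ Real.exp (C₁ * (K : ℝ) ^ θ₁) ∧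
      ∀ α ∈ A, ∃ f ∈ F, |α - f - round (α - f)| ≤ Real.exp (-K))
    (hΓ : ∃ C₂ : ℝ, ∀ K : ℕ, 1 ≤ K → ∃ F : Finset ℝ, (F.card : ℝ) ≤ Real.exp (C₂ * (K : ℝ) ^ θ₂) ∧
      ∀ γ ∈ Γ, ∃ f ∈ F, |γ - f - round (γ - f)| ≤ Real.exp (-K)) :
    ∀ᵐ β ∂μ, ∀ α ∈ A, ∀ γ ∈ Γ, ∀ κ : ℝ, 0 < κ → ∀ N : ℕ, ∃ q : ℕ, N ≤ q ∧ 1 ≤ q ∧
      q * Real.log q ^ c *
        (|q * α - round (q * α)| * |(q * β - γ) - round (q * β - γ)|) < κ :=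
  Pool.Agent.H587.FD.uniform μ C δ hδ hμ A Γ θ₁ θ₂ c hθ₁ hθ₂ hc hc1 hc2 hA hΓ

end Pool.Agent.Results.MP_0ea415_nt.UniformThinClasses
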